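import Pool.Agent.Y415.LU.Max

/-!
`|vol(z)| ≤ v₃ · (number of tetrahedra)` for `z ∈ W(T)`.
-/

set_option autoImplicit false

namespace Pool.Agent.Y415.LU

open Real MeasureTheory Pool.Agent.H297R3.Luo

theorem step_im {z : ℂ} (h1 : z ≠ 1) : 0 < (1 / (1 - z)).im ↔ 0 < z.im := by
  have hne : (1 - z) ≠ 0 := sub_ne_zero.2 (Ne.symm h1)
  have hns : 0 < Complex.normSq (1 - z) := Complex.normSq_pos.2 hne
  have e : (1 / (1 - z)).im = z.im / Complex.normSq (1 - z) := by
    rw [one_div, Complex.inv_im]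
    simp
  rw [e]
  constructor
  · intro h
    by_contra hc
    push Not at hc
    have := div_nonpos_of_nonpos_of_nonneg hc hns.le
    linarith
  · intro h
    exact div_pos h hns

/-- the case of positive imaginary parts -/
theorem pos_case {a b c : ℂ} (hb : b = 1 / (1 - a)) (hc : c = 1 / (1 - b)) (h0 : a ≠ 0)
    (h1 : a ≠ 1) (hb1 : b ≠ 1) (him : 0 < a.im) :
    0 ≤ lob a.arg + lob b.arg + lob c.arg ∧ lob a.arg + lob b.arg + lob c.arg ≤ v3 := by
  have hbi : 0 < b.im := by rw [hb]; exact (step_im h1).2 him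
  have hci : 0 < c.im := by rw [hc]; exact (step_im hb1).2 hbi
  have hne : (1 - a) ≠ 0 := sub_ne_zero.2 (Ne.symm h1)
  have hprod : a * b * c = -1 := by
    have hb' : 1 - b = -a / (1 - a) := by
      rw [hb]
      field_simp
      ring
    have hc' : c = (1 - a) / (-a) := by
      rw [hc, hb', one_div, inv_div]
    rw [hc', hb]
    field_simp
  have ha0 : a ≠ 0 := h0
  have hb0 : b ≠ 0 := by
    intro h
    rw [h] at hbi
    simp at hbi
  have hc0 : c ≠ 0 := by
    intro h
    rw [h] at hci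
    simp at hci
  have argpos : ∀ w : ℂ, 0 < w.im → 0 < w.arg ∧ w.arg < π := by
    intro w hw
    refine ⟨?_, Complex.arg_lt_pi_iff.2 (Or.inr hw.ne')⟩
    rcases (Complex.arg_nonneg_iff.2 hw.le).lt_or_eq with h | h
    · exact h
    · exfalso
      have := (Complex.arg_eq_zero_iff (z := w)).1 h.symm
      linarith [this.2]
  obtain ⟨a1, a2⟩ := argpos a him
  obtain ⟨b1, b2⟩ := argpos b hbi
  obtain ⟨c1, c2⟩ := argpos c hci
  have hang : ((a.arg + b.arg + c.arg : ℝ) : Real.Angle) = ((π : ℝ) : Real.Angle) := by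
    have e1 := Complex.arg_mul_coe_angle (mul_ne_zero ha0 hb0) hc0
    have e2 := Complex.arg_mul_coe_angle ha0 hb0
    rw [hprod, Complex.arg_neg_one, e2] at e1
    rw [Real.Angle.coe_add, Real.Angle.coe_add]
    exact e1.symm
  have hsum : a.arg + b.arg + c.arg = π := by
    obtain ⟨k, hk⟩ := Real.Angle.angle_eq_iff_two_pi_dvd_sub.1 hang
    have hpi := Real.pi_pos
    have h3 : (k : ℝ) < 1 + 1 / 2 := by
      by_contra hcon
      push Not at hcon
      nlinarith
    have h4 : (-1 : ℝ) < k := by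
      by_contra hcon
      push Not at hcon
      nlinarith
    have h5 : k < 1 := by
      by_contra hcon
      push Not at hcon
      have : (1 : ℝ) ≤ k := by exact_mod_cast hcon
      nlinarith
    have h6 : -1 < k := by exact_mod_cast h4
    have h7 : k = 0 := by omega
    rw [h7] at hk
    push_cast at hk
    linarith
  exact ⟨three_nonneg a1 b1 c1 hsum, three_le a1 b1 c1 hsum⟩

theorem lob_arg_conj {w : ℂ} : lob (starRingEnd ℂ w).arg = - lob w.arg := by
  rw [Complex.arg_conj]
  split_ifs with h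
  · rw [h, lob_pi, neg_zero]
  · exact lob_neg _

theorem lob_arg_real {w : ℂ} (h : w.im = 0) : lob w.arg = 0 := by
  rcases le_total 0 w.re with h1 | h1
  · have : w.arg = 0 := Complex.arg_eq_zero_iff.2 ⟨h1, h⟩
    rw [this, lob_zero]
  · rcases h1.lt_or_eq with h2 | h2
    · have : w.arg = π := Complex.arg_eq_pi_iff.2 ⟨h2, h⟩
      rw [this, lob_pi]
    · have : w.arg = 0 := Complex.arg_eq_zero_iff.2 ⟨h2.ge, h⟩
      rw [this, lob_zero]

/-- the volume of one tetrahedron -/
theorem tet_bound {a b c : ℂ} (hb : b = 1 / (1 - a)) (hc : c = 1 / (1 - b)) (h0 : a ≠ 0)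
    (h1 : a ≠ 1) (hb1 : b ≠ 1) : |lob a.arg + lob b.arg + lob c.arg| ≤ v3 := by
  have hv := v3_pos
  rcases lt_trichotomy a.im 0 with h | h | h
  · have hb' : (starRingEnd ℂ b) = 1 / (1 - starRingEnd ℂ a) := by
      rw [hb, map_div₀, map_sub, map_one]
    have hc' : (starRingEnd ℂ c) = 1 / (1 - starRingEnd ℂ b) := by
      rw [hc, map_div₀, map_sub, map_one]
    have h0' : starRingEnd ℂ a ≠ 0 := by simpa using h0
    have inj : ∀ w : ℂ, w ≠ 1 → starRingEnd ℂ w ≠ 1 := by
      intro w hw hc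
      apply hw
      have := congrArg (starRingEnd ℂ) hc
      simpa using this
    have him : 0 < (starRingEnd ℂ a).im := by
      rw [Complex.conj_im]
      linarith
    obtain ⟨p1, p2⟩ := pos_case hb' hc' h0' (inj a h1) (inj b hb1) him
    rw [lob_arg_conj, lob_arg_conj, lob_arg_conj] at p1 p2
    rw [abs_le]
    constructor <;> linarith
  · have hbi : b.im = 0 := by
      rw [hb, one_div, Complex.inv_im]
      simp [h]
    have hci : c.im = 0 := by
      rw [hc, one_div, Complex.inv_im]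
      simp [hbi]
    rw [lob_arg_real h, lob_arg_real hbi, lob_arg_real hci]
    simpa using hv.le
  · obtain ⟨p1, p2⟩ := pos_case hb hc h0 h1 hb1 h
    rw [abs_le]
    constructor <;> linarith

theorem vol_le (T : Triangulation) (z : T.Quad → ℂ) (hz : z ∈ T.W) :
    |T.vol z| ≤ v3 * Fintype.card T.Tet := by
  obtain ⟨hne, hstep, -⟩ := hz
  have e : T.vol z = ∑ t : T.Tet, (lob (z (t, 0)).arg + lob (z (t, 1)).arg + lob (z (t, 2)).arg) := by
    unfold Triangulation.vol
    rw [Fintype.sum_prod_type]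
    refine Finset.sum_congr rfl fun t _ => ?_
    rw [Fin.sum_univ_three]
  rw [e]
  calc |∑ t : T.Tet, (lob (z (t, 0)).arg + lob (z (t, 1)).arg + lob (z (t, 2)).arg)|
      ≤ ∑ t : T.Tet, |lob (z (t, 0)).arg + lob (z (t, 1)).arg + lob (z (t, 2)).arg| :=
        Finset.abs_sum_le_sum_abs _ _
    _ ≤ ∑ _t : T.Tet, v3 := by
        refine Finset.sum_le_sum fun t _ => ?_
        exact tet_bound (hstep t 0) (hstep t 1) (hne (t, 0)).1 (hne (t, 0)).2 (hne (t, 1)).2
    _ = v3 * Fintype.card T.Tet := by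
        rw [Finset.sum_const, Finset.card_univ, nsmul_eq_mul, mul_comm]

end Pool.Agent.Y415.LU
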