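import Pool.Agent.H297R3.Luo.Weight
import Pool.Agent.Y415.LU.Bound

/-!
A one-parameter family of points of `W(T)` for the join triangulations of the 3-sphere whose
volume tends to `v₃ / 2` times the number of tetrahedra.
-/

set_option autoImplicit false

namespace Pool.Agent.Y415.LU

open Complex Pool.Agent.H297R3.Luo Filter Topology

/-- the sixth root of unity `e^{iπ/3}` -/
noncomputable def w : ℂ := (1 + s3 * I) / 2

theorem w_sq : w * w = w - 1 := by
  have hs := sI_sq
  unfold w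
  linear_combination (1 / 4 : ℂ) * hs

theorem w_im : w.im = Real.sqrt 3 / 2 := by
  unfold w s3
  simp

theorem w_im_pos : 0 < w.im := by
  rw [w_im]
  positivity

theorem w_ne : w ≠ 0 := by
  intro h
  have := w_im_pos
  rw [h] at this
  simp at this

theorem w_mul : w * (1 - w) = 1 := by
  linear_combination - w_sq

theorem w_one_sub_ne : 1 - w ≠ 0 := by
  intro h
  have := w_mul
  rw [h, mul_zero] at this
  exact zero_ne_one this

/-- the three shape parameters of a tetrahedron -/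
noncomputable def tri (x : ℂ) : Fin 3 → ℂ := ![x, 1 / (1 - x), (x - 1) / x]

theorem ne_of_im {x : ℂ} (h : x.im ≠ 0) : x ≠ 0 ∧ x ≠ 1 := by
  constructor
  · rintro rfl; simp at h
  · rintro rfl; simp at h

theorem tri_im {x : ℂ} (h : x.im ≠ 0) (k : Fin 3) : (tri x k).im ≠ 0 := by
  obtain ⟨h0, h1⟩ := ne_of_im h
  have hne : (1 - x) ≠ 0 := sub_ne_zero.2 (Ne.symm h1)
  have hns : Complex.normSq (1 - x) ≠ 0 := (Complex.normSq_pos.2 hne).ne'
  have hnx : Complex.normSq x ≠ 0 := (Complex.normSq_pos.2 h0).ne'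
  fin_cases k
  · exact h
  · show (1 / (1 - x)).im ≠ 0
    rw [one_div, Complex.inv_im]
    simp only [Complex.sub_im, Complex.one_im, zero_sub, neg_neg]
    exact div_ne_zero h hns
  · show ((x - 1) / x).im ≠ 0
    have e : (x - 1) / x = 1 - x⁻¹ := by
      field_simp
    rw [e, Complex.sub_im, Complex.inv_im]
    simp only [Complex.one_im, zero_sub]
    intro hc
    have : x.im / normSq x = 0 := by linarith [hc, neg_div (normSq x) x.im]
    exact div_ne_zero h hnx this

theorem tri_succ {x : ℂ} (h : x.im ≠ 0) (k : Fin 3) : tri x (k + 1) = 1 / (1 - tri x k) := by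
  obtain ⟨h0, h1⟩ := ne_of_im h
  have hne : (1 - x) ≠ 0 := sub_ne_zero.2 (Ne.symm h1)
  fin_cases k
  · rfl
  · show (x - 1) / x = 1 / (1 - 1 / (1 - x))
    have e : 1 - 1 / (1 - x) = -x / (1 - x) := by
      field_simp
      ring
    rw [e, one_div, inv_div]
    field_simp
    ring
  · show x = 1 / (1 - (x - 1) / x)
    have e : 1 - (x - 1) / x = 1 / x := by
      field_simp
      ring
    rw [e, one_div_one_div]

theorem tri_w (k : Fin 3) : tri w k = w := by
  have h1 := w_mul
  have h2 := w_sq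
  fin_cases k
  · rfl
  · show 1 / (1 - w) = w
    rw [div_eq_iff w_one_sub_ne]
    exact h1.symm
  · show (w - 1) / w = w
    rw [div_eq_iff w_ne]
    exact h2.symm

/-- the first shape parameter, according to the parities -/
noncomputable def base (t : ℝ) : Bool → Bool → ℂ
  | false, false => w
  | true, true => w
  | false, true => (t : ℂ) * (1 - w)
  | true, false => ((t⁻¹ : ℝ) : ℂ) * (1 - w)

theorem base_im {t : ℝ} (ht : 0 < t) (a b : Bool) : (base t a b).im ≠ 0 := by
  have h := w_im_pos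
  have ht' : 0 < t⁻¹ := inv_pos.2 ht
  cases a <;> cases b
  · exact h.ne'
  · show ((t : ℂ) * (1 - w)).im ≠ 0
    simp [ht.ne', h.ne']
  · show (((t⁻¹ : ℝ) : ℂ) * (1 - w)).im ≠ 0
    simp [ht.ne', h.ne']
  · exact h.ne'

/-- the shape parameters, according to the parities -/
noncomputable def sh (t : ℝ) (a b : Bool) : Fin 3 → ℂ := tri (base t a b)

theorem sh_ne {t : ℝ} (ht : 0 < t) (a b : Bool) (k : Fin 3) : sh t a b k ≠ 0 ∧ sh t a b k ≠ 1 :=
  ne_of_im (tri_im (base_im ht a b) k)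

theorem sh_succ {t : ℝ} (ht : 0 < t) (a b : Bool) (k : Fin 3) :
    sh t a b (k + 1) = 1 / (1 - sh t a b k) :=
  tri_succ (base_im ht a b) k

theorem prodA {t : ℝ} (ht : 0 < t) (b : Bool) : ∃ r : ℝ, 0 < r ∧
    sh t b false 0 * sh t b true 0 = (r : ℂ) := by
  have h := w_mul
  cases b
  · refine ⟨t, ht, ?_⟩
    show w * ((t : ℂ) * (1 - w)) = (t : ℂ)
    linear_combination (t : ℂ) * h
  · refine ⟨t⁻¹, inv_pos.2 ht, ?_⟩
    show (((t⁻¹ : ℝ) : ℂ) * (1 - w)) * w = ((t⁻¹ : ℝ) : ℂ)
    linear_combination ((t⁻¹ : ℝ) : ℂ) * h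

theorem prodB {t : ℝ} (ht : 0 < t) (b : Bool) : ∃ r : ℝ, 0 < r ∧
    sh t false b 0 * sh t true b 0 = (r : ℂ) := by
  have h := w_mul
  cases b
  · refine ⟨t⁻¹, inv_pos.2 ht, ?_⟩
    show w * (((t⁻¹ : ℝ) : ℂ) * (1 - w)) = ((t⁻¹ : ℝ) : ℂ)
    linear_combination ((t⁻¹ : ℝ) : ℂ) * h
  · refine ⟨t, ht, ?_⟩
    show ((t : ℂ) * (1 - w)) * w = (t : ℂ)
    linear_combination (t : ℂ) * h

theorem two_pos' {t : ℝ} (ht : 0 < t) : 0 < t + t⁻¹ - 1 := by
  have h1 : t * t⁻¹ = 1 := mul_inv_cancel₀ ht.ne'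
  have h2 : 0 < t⁻¹ := inv_pos.2 ht
  nlinarith [sq_nonneg (t - t⁻¹)]

theorem prodC2 {t : ℝ} (ht : 0 < t) :
    w * w * (sh t false true 2) * (sh t true false 2) = ((t + t⁻¹ - 1 : ℝ) : ℂ) := by
  have h0 := w_ne
  have h1 := w_one_sub_ne
  have hm := w_mul
  have hw := w_sq
  have hT : (t : ℂ) ≠ 0 := by exact_mod_cast ht.ne'
  have hTS : (t : ℂ) * ((t⁻¹ : ℝ) : ℂ) = 1 := by
    rw [← Complex.ofReal_mul, mul_inv_cancel₀ ht.ne', Complex.ofReal_one]
  have hS : ((t⁻¹ : ℝ) : ℂ) ≠ 0 := by exact_mod_cast (inv_pos.2 ht).ne'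
  show w * w * (((t : ℂ) * (1 - w) - 1) / ((t : ℂ) * (1 - w))) *
    ((((t⁻¹ : ℝ) : ℂ) * (1 - w) - 1) / (((t⁻¹ : ℝ) : ℂ) * (1 - w))) = _
  rw [Complex.ofReal_sub, Complex.ofReal_add, Complex.ofReal_one]
  generalize ((t⁻¹ : ℝ) : ℂ) = S at *
  generalize (t : ℂ) = T at *
  have e1 : (T * (1 - w)) * (S * (1 - w)) = - w := by
    linear_combination (1 - w) ^ 2 * hTS + hw
  have e2 : (T * (1 - w) - 1) * (S * (1 - w) - 1) = (1 - w) * (1 - T - S) := by
    linear_combination e1
  calc w * w * ((T * (1 - w) - 1) / (T * (1 - w))) * ((S * (1 - w) - 1) / (S * (1 - w)))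
      = w * w * ((T * (1 - w) - 1) * (S * (1 - w) - 1)) / ((T * (1 - w)) * (S * (1 - w))) := by
        field_simp
    _ = w * w * ((1 - w) * (1 - T - S)) / (- w) := by rw [e1, e2]
    _ = - (w * (1 - w)) * (1 - T - S) := by
        field_simp
    _ = T + S - 1 := by rw [hm]; ring

theorem prodC1 {t : ℝ} (ht : 0 < t) :
    w * w * (sh t false true 1) * (sh t true false 1) = (((t + t⁻¹ - 1)⁻¹ : ℝ) : ℂ) := by
  have h0 := w_ne
  have h1 := w_one_sub_ne
  have hm := w_mul
  have hw := w_sq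
  have hp := two_pos' ht
  have hTS : (t : ℂ) * ((t⁻¹ : ℝ) : ℂ) = 1 := by
    rw [← Complex.ofReal_mul, mul_inv_cancel₀ ht.ne', Complex.ofReal_one]
  have hp' : (t : ℂ) + ((t⁻¹ : ℝ) : ℂ) - 1 ≠ 0 := by
    intro h
    have : ((t + t⁻¹ - 1 : ℝ) : ℂ) = 0 := by
      rw [Complex.ofReal_sub, Complex.ofReal_add, Complex.ofReal_one]
      exact h
    exact hp.ne' (by exact_mod_cast this)
  show w * w * (1 / (1 - (t : ℂ) * (1 - w))) * (1 / (1 - ((t⁻¹ : ℝ) : ℂ) * (1 - w))) = _
  have hr : (((t + t⁻¹ - 1)⁻¹ : ℝ) : ℂ) = ((t : ℂ) + ((t⁻¹ : ℝ) : ℂ) - 1)⁻¹ := by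
    rw [Complex.ofReal_inv (t + t⁻¹ - 1), Complex.ofReal_sub, Complex.ofReal_add,
      Complex.ofReal_one]
  rw [hr]
  generalize ((t⁻¹ : ℝ) : ℂ) = S at *
  generalize (t : ℂ) = T at *
  have e1 : (T * (1 - w)) * (S * (1 - w)) = - w := by
    linear_combination (1 - w) ^ 2 * hTS + hw
  have e2 : (1 - T * (1 - w)) * (1 - S * (1 - w)) = - ((1 - w) * (T + S - 1)) := by
    linear_combination e1
  calc w * w * (1 / (1 - T * (1 - w))) * (1 / (1 - S * (1 - w)))
      = w * w / ((1 - T * (1 - w)) * (1 - S * (1 - w))) := by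
        rw [one_div, one_div, div_eq_mul_inv, mul_inv]
        ring
    _ = w * w / (- ((1 - w) * (T + S - 1))) := by rw [e2]
    _ = (T + S - 1)⁻¹ := by
        rw [div_eq_iff (neg_ne_zero.2 (mul_ne_zero h1 hp'))]
        have : (T + S - 1)⁻¹ * -((1 - w) * (T + S - 1)) =
            - (1 - w) * ((T + S - 1)⁻¹ * (T + S - 1)) := by ring
        rw [this, inv_mul_cancel₀ hp']
        linear_combination hw

theorem prodC {t : ℝ} (ht : 0 < t) (a b : Bool) : ∃ r : ℝ, 0 < r ∧
    sh t a b 1 * sh t (!a) (!b) 1 * sh t a (!b) 2 * sh t (!a) b 2 = (r : ℂ) := by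
  have e : ∀ k, sh t false false k = w := tri_w
  have e' : ∀ k, sh t true true k = w := tri_w
  have h2 := prodC2 ht
  have h1 := prodC1 ht
  cases a <;> cases b
  · refine ⟨_, two_pos' ht, ?_⟩
    show sh t false false 1 * sh t true true 1 * sh t false true 2 * sh t true false 2 = _
    rw [e, e', h2]
  · refine ⟨_, inv_pos.2 (two_pos' ht), ?_⟩
    show sh t false true 1 * sh t true false 1 * sh t false false 2 * sh t true true 2 = _
    rw [e, e', ← h1]
    ring
  · refine ⟨_, inv_pos.2 (two_pos' ht), ?_⟩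
    show sh t true false 1 * sh t false true 1 * sh t true true 2 * sh t false false 2 = _
    rw [e, e', ← h1]
    ring
  · refine ⟨_, two_pos' ht, ?_⟩
    show sh t true true 1 * sh t false false 1 * sh t true false 2 * sh t false true 2 = _
    rw [e, e', ← h2]
    ring

/-- the shape parameters -/
noncomputable def zt (t : ℝ) (m n : ℕ) : (joinTri m n).Quad → ℂ :=
  fun q => sh t (par q.1.1) (par q.1.2) q.2

theorem zt_mem {t : ℝ} (ht : 0 < t) (m n : ℕ) : zt t m n ∈ (joinTri m n).W := by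
  refine ⟨fun q => sh_ne ht _ _ _, fun t' k => sh_succ ht _ _ _, ?_⟩
  intro e
  rw [prod_edge]
  generalize eLab e = L
  rcases L with i0 | j0 | ⟨a, b⟩
  · have h : ∏ t' : Fin (2 * m + 2) × Fin (2 * n + 2), (∏ c : Fin 6,
        if lab t' c = Sum.inl i0 then zt t m n (t', quad6 c) else 1) =
        (sh t (par i0) false 0 * sh t (par i0) true 0) ^ (n + 1) := by
      rw [← prod_par (fun b => sh t (par i0) b 0), Fintype.prod_prod_type,
        Finset.prod_eq_single i0]
      · apply Finset.prod_congr rfl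
        intro j _
        rw [Fin.prod_univ_six]
        simp [lab, zt, quad6]
      · intro i _ hi
        apply Finset.prod_eq_one
        intro j _
        rw [Fin.prod_univ_six]
        simp [lab, hi]
      · intro h; exact absurd (Finset.mem_univ _) h
    rw [h]
    exact pow_pos_real (prodA ht _) _
  · have h : ∏ t' : Fin (2 * m + 2) × Fin (2 * n + 2), (∏ c : Fin 6,
        if lab t' c = Sum.inr (Sum.inl j0) then zt t m n (t', quad6 c) else 1) =
        (sh t false (par j0) 0 * sh t true (par j0) 0) ^ (m + 1) := by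
      rw [← prod_par (fun b => sh t b (par j0) 0), Fintype.prod_prod_type_right,
        Finset.prod_eq_single j0]
      · apply Finset.prod_congr rfl
        intro i _
        rw [Fin.prod_univ_six]
        simp [lab, zt, quad6]
      · intro j _ hj
        apply Finset.prod_eq_one
        intro i _
        rw [Fin.prod_univ_six]
        simp [lab, hj]
      · intro h; exact absurd (Finset.mem_univ _) h
    rw [h]
    exact pow_pos_real (prodB ht _) _
  · have h : ∏ t' : Fin (2 * m + 2) × Fin (2 * n + 2), (∏ c : Fin 6,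
        if lab t' c = Sum.inr (Sum.inr (a, b)) then zt t m n (t', quad6 c) else 1) =
        sh t (par a) (par b) 1 * sh t (!par a) (!par b) 1 * sh t (par a) (!par b) 2 *
          sh t (!par a) (par b) 2 := by
      have h1 : ∀ t' : Fin (2 * m + 2) × Fin (2 * n + 2), (∏ c : Fin 6,
          if lab t' c = Sum.inr (Sum.inr (a, b)) then zt t m n (t', quad6 c) else 1) =
          (if t' = (a, b) then sh t (par t'.1) (par t'.2) 1 else 1) *
          (if t' = (a - 1, b - 1) then sh t (par t'.1) (par t'.2) 1 else 1) *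
          (if t' = (a, b - 1) then sh t (par t'.1) (par t'.2) 2 else 1) *
          (if t' = (a - 1, b) then sh t (par t'.1) (par t'.2) 2 else 1) := by
        rintro ⟨i, j⟩
        rw [Fin.prod_univ_six]
        have e1 : (i + 1 = a) = (i = a - 1) := propext eq_sub_iff_add_eq.symm
        have e2 : (j + 1 = b) = (j = b - 1) := propext eq_sub_iff_add_eq.symm
        simp only [lab, quad6, Matrix.cons_val_zero, Matrix.cons_val_one, Matrix.cons_val,
          reduceCtorEq, if_false, Sum.inr.injEq, Prod.mk.injEq, one_mul, zt, e1, e2]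
      simp only [h1, Finset.prod_mul_distrib, Finset.prod_ite_eq', Finset.mem_univ, if_true,
        par_pred]
    rw [h]
    exact prodC ht _ _

/-- the volume of the four tetrahedra of the pattern -/
noncomputable def F (t : ℝ) : ℝ := ∑ k : Fin 3, (lob (arg (sh t false false k)) +
  lob (arg (sh t true true k)) + lob (arg (sh t false true k)) + lob (arg (sh t true false k)))

theorem vol_zt (t : ℝ) (m n : ℕ) : (joinTri m n).vol (zt t m n) = (m + 1) * (n + 1) * F t := by
  unfold Triangulation.vol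
  have h1 : ∑ q : (joinTri m n).Quad, lob (Complex.arg (zt t m n q)) =
      ∑ t' : Fin (2 * m + 2) × Fin (2 * n + 2), ∑ k : Fin 3,
        lob (Complex.arg (sh t (par t'.1) (par t'.2) k)) :=
    Fintype.sum_prod_type _
  rw [h1, Fintype.sum_prod_type]
  have h2 : ∀ i : Fin (2 * m + 2), ∑ j : Fin (2 * n + 2), ∑ k : Fin 3,
      lob (Complex.arg (sh t (par i) (par j) k)) =
      (fun b : Bool => ((n : ℝ) + 1) * ((∑ k : Fin 3, lob (Complex.arg (sh t b false k))) +
        ∑ k : Fin 3, lob (Complex.arg (sh t b true k)))) (par i) := by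
    intro i
    exact sum_par (fun b => ∑ k : Fin 3, lob (Complex.arg (sh t (par i) b k)))
  simp only [h2]
  rw [sum_par (fun b : Bool => ((n : ℝ) + 1) * ((∑ k : Fin 3, lob (Complex.arg (sh t b false k))) +
        ∑ k : Fin 3, lob (Complex.arg (sh t b true k))))]
  unfold F
  simp only [Finset.sum_add_distrib]
  ring

theorem lob_continuous : Continuous lob := by
  have h : Continuous fun t : ℝ => ∫ s in (0:ℝ)..t, lg s :=
    intervalIntegral.continuous_primitive lg_integrable 0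
  exact h.neg

theorem arg_w' : arg w = Real.pi / 3 := arg_w

theorem arg_one_sub_w : arg (1 - w) = -(Real.pi / 3) := by
  have hpi := Real.pi_pos
  apply arg_polar 1 _ one_pos (by linarith) (by linarith)
  · rw [Real.cos_neg, Real.cos_pi_div_three]; simp [w, s3]; norm_num
  · rw [Real.sin_neg, Real.sin_pi_div_three]; simp [w, s3]

theorem arg_neg_w : arg (-w) = Real.pi / 3 - Real.pi := by
  have hpi := Real.pi_pos
  apply arg_polar 1 _ one_pos (by linarith) (by linarith)
  · rw [Real.cos_sub_pi, Real.cos_pi_div_three]; simp [w, s3]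
  · rw [Real.sin_sub_pi, Real.sin_pi_div_three]; simp [w, s3]

/-- the limit of the volume of one tetrahedron of negative type -/
theorem lob_lim : lob (arg (1 - w)) + lob (arg (1 : ℂ)) + lob (arg (-w)) = 0 := by
  rw [arg_one_sub_w, Complex.arg_one, arg_neg_w, lob_zero, lob_neg]
  have h : Real.pi / 3 - Real.pi = -(Real.pi - Real.pi / 3) := by ring
  rw [h, lob_neg, lob_pi_sub]
  ring

theorem inv_one_sub_w : 1 / (1 - w) = w := by
  rw [div_eq_iff w_one_sub_ne]
  exact w_mul.symm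

theorem F_eq {t : ℝ} (ht : 0 < t) : F t = 2 * v3 +
    (lob (arg (1 - w)) + lob (arg (1 / (1 - (t : ℂ) * (1 - w)))) + lob (arg ((t : ℂ) - w))) +
    (lob (arg (1 - w)) + lob (arg (1 / ((t : ℂ) - (1 - w)))) + lob (arg (1 - (t : ℂ) * w))) := by
  have e : ∀ k, sh t false false k = w := tri_w
  have e' : ∀ k, sh t true true k = w := tri_w
  have hT : (t : ℂ) ≠ 0 := by exact_mod_cast ht.ne'
  have ht' : 0 < t⁻¹ := inv_pos.2 ht
  have hm := w_mul
  have hw := w_sq
  have h1 := w_one_sub_ne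
  have a0 : arg (sh t false true 0) = arg (1 - w) := by
    show arg ((t : ℂ) * (1 - w)) = _
    exact Complex.arg_real_mul _ ht
  have b0 : arg (sh t true false 0) = arg (1 - w) := by
    show arg (((t⁻¹ : ℝ) : ℂ) * (1 - w)) = _
    exact Complex.arg_real_mul _ ht'
  have a1 : sh t false true 1 = 1 / (1 - (t : ℂ) * (1 - w)) := rfl
  have a2 : arg (sh t false true 2) = arg ((t : ℂ) - w) := by
    have : sh t false true 2 = ((t⁻¹ : ℝ) : ℂ) * ((t : ℂ) - w) := by
      show ((t : ℂ) * (1 - w) - 1) / ((t : ℂ) * (1 - w)) = _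
      rw [div_eq_iff (mul_ne_zero hT h1), Complex.ofReal_inv]
      have e3 : (t : ℂ)⁻¹ * ((t : ℂ) - w) * ((t : ℂ) * (1 - w)) =
          ((t : ℂ)⁻¹ * (t : ℂ)) * (((t : ℂ) - w) * (1 - w)) := by ring
      rw [e3, inv_mul_cancel₀ hT]
      linear_combination hm
    rw [this]
    exact Complex.arg_real_mul _ ht'
  have b1 : arg (sh t true false 1) = arg (1 / ((t : ℂ) - (1 - w))) := by
    have : sh t true false 1 = (t : ℂ) * (1 / ((t : ℂ) - (1 - w))) := by
      show 1 / (1 - ((t⁻¹ : ℝ) : ℂ) * (1 - w)) = _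
      have e3 : (1 - ((t⁻¹ : ℝ) : ℂ) * (1 - w)) = (t : ℂ)⁻¹ * ((t : ℂ) - (1 - w)) := by
        rw [Complex.ofReal_inv, mul_sub ((t : ℂ)⁻¹) (t : ℂ) (1 - w), inv_mul_cancel₀ hT]
      rw [e3, one_div, one_div, mul_inv, inv_inv]
    rw [this]
    exact Complex.arg_real_mul _ ht
  have b2 : sh t true false 2 = 1 - (t : ℂ) * w := by
    show (((t⁻¹ : ℝ) : ℂ) * (1 - w) - 1) / (((t⁻¹ : ℝ) : ℂ) * (1 - w)) = _
    have hS : ((t⁻¹ : ℝ) : ℂ) ≠ 0 := by exact_mod_cast ht'.ne'
    rw [div_eq_iff (mul_ne_zero hS h1)]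
    have e3 : (1 - (t : ℂ) * w) * (((t⁻¹ : ℝ) : ℂ) * (1 - w)) =
        ((t⁻¹ : ℝ) : ℂ) * (1 - w) - ((t : ℂ) * ((t⁻¹ : ℝ) : ℂ)) * (w * (1 - w)) := by ring
    have hTS : (t : ℂ) * ((t⁻¹ : ℝ) : ℂ) = 1 := by
      rw [← Complex.ofReal_mul, mul_inv_cancel₀ ht.ne', Complex.ofReal_one]
    rw [e3, hTS, hm]
    ring
  unfold F
  rw [Fin.sum_univ_three, e, e, e, e', e', e', a0, b0, a1, a2, b1, b2, arg_w']
  have hv : v3 = 3 * lob (Real.pi / 3) := rfl
  rw [hv]
  ring

theorem F_tendsto : Tendsto F (𝓝[>] 0) (𝓝 (2 * v3)) := by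
  have hwi := w_im_pos
  have c1 : ContinuousAt (fun t : ℝ => lob (arg (1 / (1 - (t : ℂ) * (1 - w))))) 0 := by
    apply lob_continuous.continuousAt.comp
    apply (Complex.continuousAt_arg _).comp
    · apply ContinuousAt.div continuousAt_const (by fun_prop)
      simp
    · simp
  have c2 : ContinuousAt (fun t : ℝ => lob (arg ((t : ℂ) - w))) 0 := by
    apply lob_continuous.continuousAt.comp
    apply (Complex.continuousAt_arg _).comp
    · fun_prop
    · rw [Complex.mem_slitPlane_iff]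
      right
      simp [hwi.ne']
  have c3 : ContinuousAt (fun t : ℝ => lob (arg (1 / ((t : ℂ) - (1 - w))))) 0 := by
    apply lob_continuous.continuousAt.comp
    apply (Complex.continuousAt_arg _).comp
    · apply ContinuousAt.div continuousAt_const (by fun_prop)
      rw [Complex.ofReal_zero, zero_sub]
      exact neg_ne_zero.2 w_one_sub_ne
    · rw [Complex.ofReal_zero, zero_sub, one_div, inv_neg, ← one_div, inv_one_sub_w,
        Complex.mem_slitPlane_iff]
      right
      simp [hwi.ne']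
  have c4 : ContinuousAt (fun t : ℝ => lob (arg (1 - (t : ℂ) * w))) 0 := by
    apply lob_continuous.continuousAt.comp
    apply (Complex.continuousAt_arg _).comp
    · fun_prop
    · simp
  have hG : ContinuousAt (fun t : ℝ => 2 * v3 +
    (lob (arg (1 - w)) + lob (arg (1 / (1 - (t : ℂ) * (1 - w)))) + lob (arg ((t : ℂ) - w))) +
    (lob (arg (1 - w)) + lob (arg (1 / ((t : ℂ) - (1 - w)))) + lob (arg (1 - (t : ℂ) * w)))) 0 :=
    (continuousAt_const.add ((continuousAt_const.add c1).add c2)).add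
      ((continuousAt_const.add c3).add c4)
  have h := hG.tendsto.mono_left (nhdsWithin_le_nhds (s := Set.Ioi (0:ℝ)))
  have hval : 2 * v3 +
    (lob (arg (1 - w)) + lob (arg (1 / (1 - ((0:ℝ) : ℂ) * (1 - w)))) +
      lob (arg (((0:ℝ) : ℂ) - w))) +
    (lob (arg (1 - w)) + lob (arg (1 / (((0:ℝ) : ℂ) - (1 - w)))) +
      lob (arg (1 - ((0:ℝ) : ℂ) * w))) = 2 * v3 := by
    have hl := lob_lim
    rw [Complex.ofReal_zero, zero_mul, sub_zero, zero_sub, zero_sub, zero_mul, sub_zero,
      div_one, one_div, inv_neg, ← one_div, inv_one_sub_w]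
    linarith
  rw [hval] at h
  apply h.congr'
  filter_upwards [self_mem_nhdsWithin] with t ht
  exact (F_eq ht).symm

/-- points of `W(T)` whose volume is close to `v₃ / 2` times the number of tetrahedra -/
theorem exists_vol (ε : ℝ) (hε : 0 < ε) (m n : ℕ) : ∃ z ∈ (joinTri m n).W,
    (v3 / 2 - ε) * (4 * (m + 1) * (n + 1)) < (joinTri m n).vol z := by
  have h1 := F_tendsto.eventually (lt_mem_nhds (show 2 * v3 - 4 * ε < 2 * v3 by linarith))
  have h2 : ∀ᶠ t in 𝓝[>] (0:ℝ), 0 < t := self_mem_nhdsWithin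
  obtain ⟨t, ht1, ht2⟩ := (h1.and h2).exists
  refine ⟨zt t m n, zt_mem ht2 m n, ?_⟩
  rw [vol_zt]
  have h3 : (0:ℝ) < (m + 1) * (n + 1) := by positivity
  nlinarith

end Pool.Agent.Y415.LU
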