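import Mathlib
import Pool.Agent.H297R3.Luo.Lob

/-!
Two values of the Lobachevsky function: `Λ(π/2) = 0` and `Λ(π/6) = (3/2) Λ(π/3)`.
-/

set_option autoImplicit false

namespace Pool.Agent.Y415.LU

open Real MeasureTheory Pool.Agent.H297R3.Luo

theorem int_half : ∫ s in (0:ℝ)..(π / 2), lg s = 0 := by
  have h1 : ∫ s in (0:ℝ)..(π / 2), lg s =
      ∫ s in (0:ℝ)..(π / 2), (Real.log 2 + Real.log (Real.sin s)) := by
    apply intervalIntegral.integral_congr_ae
    filter_upwards with s hs
    rw [Set.uIoc_of_le (by positivity)] at hs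
    have hsin : 0 < Real.sin s := Real.sin_pos_of_pos_of_lt_pi hs.1 (by linarith [hs.2, Real.pi_pos])
    unfold lg
    rw [abs_of_pos (by positivity), Real.log_mul (by norm_num) hsin.ne']
  have h2 : IntervalIntegrable (fun s : ℝ => Real.log (Real.sin s)) volume 0 (π / 2) := by
    have h := (analyticOnNhd_sin (s := Set.uIcc 0 (π / 2))).meromorphicOn.intervalIntegrable_log
    exact h
  rw [h1, intervalIntegral.integral_add (by simp) h2, integral_log_sin_zero_pi_div_two]
  simp
  ring

theorem lob_half : lob (π / 2) = 0 := by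
  have h := int_half
  unfold lg at h
  unfold lob
  rw [h, neg_zero]

theorem dup : ∫ s in (0:ℝ)..(π / 3), lg s =
    2 * ((∫ s in (0:ℝ)..(π / 6), lg s) + ∫ s in (π / 3)..(π / 2), lg s) := by
  have hpi := Real.pi_pos
  have h1 : ∫ u in (0:ℝ)..(π / 6), lg (2 * u) = 2⁻¹ * ∫ s in (0:ℝ)..(π / 3), lg s := by
    rw [intervalIntegral.integral_comp_mul_left _ (by norm_num), smul_eq_mul, mul_zero,
      show 2 * (π / 6) = π / 3 by ring]
  have h2 : ∫ u in (0:ℝ)..(π / 6), lg (π / 2 - u) = ∫ s in (π / 3)..(π / 2), lg s := by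
    rw [intervalIntegral.integral_comp_sub_left, sub_zero,
      show π / 2 - π / 6 = π / 3 by ring]
  have h3 : ∫ u in (0:ℝ)..(π / 6), lg (2 * u) =
      ∫ u in (0:ℝ)..(π / 6), (lg u + lg (π / 2 - u)) := by
    apply intervalIntegral.integral_congr_ae
    filter_upwards with u hu
    rw [Set.uIoc_of_le (by positivity)] at hu
    have hsin : 0 < Real.sin u := Real.sin_pos_of_pos_of_lt_pi hu.1 (by linarith [hu.2])
    have hcos : 0 < Real.cos u := Real.cos_pos_of_mem_Ioo ⟨by linarith [hu.1], by linarith [hu.2]⟩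
    unfold lg
    rw [Real.sin_pi_div_two_sub, Real.sin_two_mul, abs_of_pos (by positivity),
      abs_of_pos (by positivity), abs_of_pos (by positivity),
      ← Real.log_mul (by positivity) (by positivity)]
    congr 1
    ring
  have h4 : ∫ u in (0:ℝ)..(π / 6), (lg u + lg (π / 2 - u)) =
      (∫ s in (0:ℝ)..(π / 6), lg s) + ∫ s in (π / 3)..(π / 2), lg s := by
    rw [intervalIntegral.integral_add (lg_integrable _ _), h2]
    have h5 := (lg_integrable (π / 2) (π / 3)).comp_sub_left (π / 2)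
    rw [sub_self, show π / 2 - π / 3 = π / 6 by ring] at h5
    exact h5
  rw [h1, h4] at h3
  linarith

/-- `2 Λ(π/3) - Λ(π/2) - Λ(π/6) = v₃ / 6` -/
theorem key_eq : 2 * lob (π / 3) - lob (π / 2) - lob (π / 6) = v3 / 6 := by
  have h := dup
  have h0 := int_half
  have a1 := intervalIntegral.integral_add_adjacent_intervals (lg_integrable 0 (π / 6))
    (lg_integrable (π / 6) (π / 3))
  have a2 := intervalIntegral.integral_add_adjacent_intervals (lg_integrable 0 (π / 3))
    (lg_integrable (π / 3) (π / 2))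
  have e3 : lob (π / 3) = - ∫ s in (0:ℝ)..(π / 3), lg s := rfl
  have e2 : lob (π / 2) = - ∫ s in (0:ℝ)..(π / 2), lg s := rfl
  have e6 : lob (π / 6) = - ∫ s in (0:ℝ)..(π / 6), lg s := rfl
  unfold v3
  rw [e3, e2, e6]
  linarith

theorem v3_pos : 0 < v3 := by
  have h1 := lob_key
  have h2 := key_eq
  linarith

/-- the Lobachevsky function is bounded on `[-π, π]` -/
theorem lob_bound : ∃ B : ℝ, 0 ≤ B ∧ ∀ t ∈ Set.Icc (-π) π, |lob t| ≤ B := by
  have hc : Continuous lob := by
    have h := intervalIntegral.continuous_primitive (fun a b => lg_integrable a b) 0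
    exact h.neg
  obtain ⟨B, hB⟩ := isCompact_Icc.exists_bound_of_continuousOn (s := Set.Icc (-π) π)
    hc.continuousOn
  refine ⟨|B|, abs_nonneg _, fun t ht => ?_⟩
  have h := hB t ht
  rw [Real.norm_eq_abs] at h
  exact h.trans (le_abs_self B)

/-- the volume is at most linear in the number of tetrahedra -/
theorem vol_bound : ∃ B : ℝ, ∀ (T : Triangulation) (z : T.Quad → ℂ),
    |T.vol z| ≤ B * Fintype.card T.Tet := by
  obtain ⟨B, hB0, hB⟩ := lob_bound
  refine ⟨3 * B, fun T z => ?_⟩
  unfold Triangulation.vol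
  refine (Finset.abs_sum_le_sum_abs _ _).trans ?_
  have h1 : ∀ q ∈ (Finset.univ : Finset T.Quad), |lob (Complex.arg (z q))| ≤ B := fun q _ =>
    hB _ ⟨(Complex.neg_pi_lt_arg _).le, Complex.arg_le_pi _⟩
  refine (Finset.sum_le_card_nsmul _ _ _ h1).trans (le_of_eq ?_)
  rw [Finset.card_univ, Fintype.card_prod, Fintype.card_fin, nsmul_eq_mul]
  push_cast
  ring

end Pool.Agent.Y415.LU
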