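import Pool.Agent.Y415.LU.Dup

/-!
The maximum of the volume of an ideal tetrahedron: `|Λ(arg z) + Λ(arg z') + Λ(arg z'')| ≤ v₃`.
-/

set_option autoImplicit false

namespace Pool.Agent.Y415.LU

open Real MeasureTheory Pool.Agent.H297R3.Luo

theorem lob_sub (a b : ℝ) : lob a - lob b = ∫ s in a..b, lg s := by
  have h := intervalIntegral.integral_add_adjacent_intervals (lg_integrable 0 a)
    (lg_integrable a b)
  have e1 : lob a = - ∫ s in (0:ℝ)..a, lg s := rfl
  have e2 : lob b = - ∫ s in (0:ℝ)..b, lg s := rfl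
  rw [e1, e2]
  linarith

theorem lg_pi_sub (s : ℝ) : lg (π - s) = lg s := by
  unfold lg
  rw [Real.sin_pi_sub]

theorem lob_zero : lob 0 = 0 := by
  have e1 : lob 0 = - ∫ s in (0:ℝ)..0, lg s := rfl
  rw [e1, intervalIntegral.integral_same, neg_zero]

/-- `Λ(π - t) = - Λ(t)` -/
theorem lob_pi_sub (t : ℝ) : lob (π - t) = - lob t := by
  have h1 : lob (π - t) - lob (π / 2) = ∫ s in (π - t)..(π / 2), lg s := lob_sub _ _
  have h2 : lob (π / 2) - lob t = ∫ s in (π / 2)..t, lg s := lob_sub _ _
  have h3 : ∫ s in (π / 2)..t, lg (π - s) = ∫ s in (π - t)..(π / 2), lg s := by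
    rw [intervalIntegral.integral_comp_sub_left]
    congr 1
    ring
  have h4 : ∫ s in (π / 2)..t, lg (π - s) = ∫ s in (π / 2)..t, lg s := by
    congr 1
    funext s
    exact lg_pi_sub s
  rw [lob_half] at h1 h2
  linarith

theorem lob_pi : lob π = 0 := by
  have h := lob_pi_sub 0
  rw [sub_zero, lob_zero, neg_zero] at h
  exact h

/-- `Λ(2 s) = 2 Λ(s) - 2 Λ(π/2 - s)` for `0 ≤ s ≤ π / 2` -/
theorem lob_dup (t : ℝ) (h0 : 0 ≤ t) (ht : t < π / 2) :
    lob (2 * t) = 2 * lob t - 2 * lob (π / 2 - t) := by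
  have hpi := Real.pi_pos
  have h1 : ∫ u in (0:ℝ)..t, lg (2 * u) = 2⁻¹ * ∫ s in (0:ℝ)..(2 * t), lg s := by
    rw [intervalIntegral.integral_comp_mul_left _ (by norm_num), smul_eq_mul, mul_zero]
  have h2 : ∫ u in (0:ℝ)..t, lg (π / 2 - u) = ∫ s in (π / 2 - t)..(π / 2), lg s := by
    rw [intervalIntegral.integral_comp_sub_left, sub_zero]
  have h3 : ∫ u in (0:ℝ)..t, lg (2 * u) = ∫ u in (0:ℝ)..t, (lg u + lg (π / 2 - u)) := by
    apply intervalIntegral.integral_congr_ae
    filter_upwards with u hu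
    rw [Set.uIoc_of_le h0] at hu
    have hsin : 0 < Real.sin u := Real.sin_pos_of_pos_of_lt_pi hu.1 (by linarith [hu.2])
    have hcos : 0 < Real.cos u := Real.cos_pos_of_mem_Ioo ⟨by linarith [hu.1], by linarith [hu.2]⟩
    unfold lg
    rw [Real.sin_pi_div_two_sub, Real.sin_two_mul, abs_of_pos (by positivity),
      abs_of_pos (by positivity), abs_of_pos (by positivity),
      ← Real.log_mul (by positivity) (by positivity)]
    congr 1
    ring
  have h4 : ∫ u in (0:ℝ)..t, (lg u + lg (π / 2 - u)) =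
      (∫ s in (0:ℝ)..t, lg s) + ∫ s in (π / 2 - t)..(π / 2), lg s := by
    rw [intervalIntegral.integral_add (lg_integrable _ _), h2]
    have h5 := (lg_integrable (π / 2) (π / 2 - t)).comp_sub_left (π / 2)
    rw [sub_self, sub_sub_cancel] at h5
    exact h5
  have h6 := lob_sub (π / 2 - t) (π / 2)
  rw [lob_half, sub_zero] at h6
  have e1 : lob (2 * t) = - ∫ s in (0:ℝ)..(2 * t), lg s := rfl
  have e2 : lob t = - ∫ s in (0:ℝ)..t, lg s := rfl
  rw [h1, h4, ← h6] at h3
  rw [e1, e2]
  linarith

theorem lg_mono {s t : ℝ} (hs : 0 < Real.sin s) (h : Real.sin s ≤ Real.sin t) : lg s ≤ lg t := by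
  unfold lg
  rw [abs_of_pos (by linarith), abs_of_pos (by linarith)]
  exact Real.log_le_log (by linarith) (by linarith)

theorem lg_nonneg {s : ℝ} (h : 1 / 2 ≤ Real.sin s) : 0 ≤ lg s := by
  unfold lg
  rw [abs_of_pos (by linarith)]
  exact Real.log_nonneg (by linarith)

theorem lg_nonpos {s : ℝ} (h0 : 0 < Real.sin s) (h : Real.sin s ≤ 1 / 2) : lg s ≤ 0 := by
  unfold lg
  rw [abs_of_pos (by linarith)]
  exact Real.log_nonpos (by linarith) (by linarith)

/-- integral comparison on an interval, except possibly at the left end -/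
theorem int_mono {f g : ℝ → ℝ} {a b : ℝ} (hab : a ≤ b) (hf : IntervalIntegrable f volume a b)
    (hg : IntervalIntegrable g volume a b) (h : ∀ s, a < s → s < b → f s ≤ g s) :
    ∫ s in a..b, f s ≤ ∫ s in a..b, g s :=
  intervalIntegral.integral_mono_on_of_le_Ioo hab hf hg fun s hs => h s hs.1 hs.2

/-- `Λ(t) ≤ Λ(π/6)` for `0 ≤ t ≤ π/2` -/
theorem lob_le_max {t : ℝ} (h0 : 0 ≤ t) (ht : t ≤ π / 2) : lob t ≤ lob (π / 6) := by
  have hpi := Real.pi_pos
  rcases le_total t (π / 6) with h | h
  · have h1 := lob_sub t (π / 6)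
    have h2 : ∫ s in t..(π / 6), lg s ≤ ∫ s in t..(π / 6), (0:ℝ) := by
      apply int_mono h (lg_integrable _ _) (by simp)
      intro s hs1 hs2
      apply lg_nonpos (Real.sin_pos_of_pos_of_lt_pi (by linarith) (by linarith))
      rw [← Real.sin_pi_div_six]
      exact Real.sin_le_sin_of_le_of_le_pi_div_two (by linarith) (by linarith) hs2.le
    simp only [intervalIntegral.integral_zero] at h2
    linarith
  · have h1 := lob_sub (π / 6) t
    have h2 : ∫ s in (π / 6)..t, (0:ℝ) ≤ ∫ s in (π / 6)..t, lg s := by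
      apply int_mono h (by simp) (lg_integrable _ _)
      intro s hs1 hs2
      apply lg_nonneg
      rw [← Real.sin_pi_div_six]
      exact Real.sin_le_sin_of_le_of_le_pi_div_two (by linarith) (by linarith) hs1.le
    simp only [intervalIntegral.integral_zero] at h2
    linarith

/-- `0 ≤ Λ(t)` for `0 ≤ t ≤ π/2` -/
theorem lob_nonneg {t : ℝ} (h0 : 0 ≤ t) (ht : t ≤ π / 2) : 0 ≤ lob t := by
  have hpi := Real.pi_pos
  rcases le_total t (π / 6) with h | h
  · have h1 := lob_sub 0 t
    rw [lob_zero] at h1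
    have h2 : ∫ s in (0:ℝ)..t, lg s ≤ ∫ s in (0:ℝ)..t, (0:ℝ) := by
      apply int_mono h0 (lg_integrable _ _) (by simp)
      intro s hs1 hs2
      apply lg_nonpos (Real.sin_pos_of_pos_of_lt_pi (by linarith) (by linarith))
      rw [← Real.sin_pi_div_six]
      exact Real.sin_le_sin_of_le_of_le_pi_div_two (by linarith) (by linarith) (by linarith)
    simp only [intervalIntegral.integral_zero] at h2
    linarith
  · have h1 := lob_sub t (π / 2)
    rw [lob_half] at h1
    have h2 : ∫ s in t..(π / 2), (0:ℝ) ≤ ∫ s in t..(π / 2), lg s := by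
      apply int_mono ht (by simp) (lg_integrable _ _)
      intro s hs1 hs2
      apply lg_nonneg
      rw [← Real.sin_pi_div_six]
      exact Real.sin_le_sin_of_le_of_le_pi_div_two (by linarith) (by linarith) (by linarith)
    simp only [intervalIntegral.integral_zero] at h2
    linarith

/-- `Λ(α) + Λ(β) ≤ 2 Λ((α + β) / 2)` -/
theorem lob_mid {α β : ℝ} (hα : 0 < α) (hαβ : α ≤ β) (hs : α + β < π) :
    lob α + lob β ≤ 2 * lob ((α + β) / 2) := by
  set m := (α + β) / 2 with hm
  have h1 := lob_sub α m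
  have h2 := lob_sub m β
  have h3 : ∫ s in α..m, lg (α + β - s) = ∫ s in m..β, lg s := by
    rw [intervalIntegral.integral_comp_sub_left]
    congr 1
    · rw [hm]; ring
    · ring
  have h4 : ∫ s in α..m, lg s ≤ ∫ s in α..m, lg (α + β - s) := by
    apply int_mono (by rw [hm]; linarith) (lg_integrable _ _)
    · have h5 := (lg_integrable β m).comp_sub_left (α + β)
      have e1 : α + β - β = α := by ring
      have e2 : α + β - m = m := by rw [hm]; ring
      rw [e1, e2] at h5
      exact h5
    · intro s hs1 hs2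
      have hs3 : s < α + β - s := by rw [hm] at hs2; linarith
      apply lg_mono (Real.sin_pos_of_pos_of_lt_pi (by linarith) (by linarith))
      rcases le_total (α + β - s) (π / 2) with h | h
      · exact Real.sin_le_sin_of_le_of_le_pi_div_two (by linarith) h hs3.le
      · rw [← Real.sin_pi_sub (α + β - s)]
        exact Real.sin_le_sin_of_le_of_le_pi_div_two (by linarith) (by linarith) (by linarith)
  linarith

/-- the upper bound for three positive angles with sum `π` -/
theorem three_le {α β γ : ℝ} (hα : 0 < α) (hβ : 0 < β) (hγ : 0 < γ) (h : α + β + γ = π) :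
    lob α + lob β + lob γ ≤ v3 := by
  have hmid : lob α + lob β ≤ 2 * lob ((α + β) / 2) := by
    rcases le_total α β with hab | hab
    · exact lob_mid hα hab (by linarith)
    · have := lob_mid hβ hab (by linarith)
      rw [add_comm β α] at this
      linarith
  have h1 : lob γ = - lob (2 * ((α + β) / 2)) := by
    rw [← lob_pi_sub]
    congr 1
    linarith
  have h2 := lob_dup ((α + β) / 2) (by linarith) (by linarith)
  have h3 : lob (π / 2 - (α + β) / 2) ≤ lob (π / 6) := lob_le_max (by linarith) (by linarith)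
  have h4 : 2 * lob (π / 6) = v3 := by
    have h5 := key_eq
    have h6 : v3 = 3 * lob (π / 3) := rfl
    rw [lob_half] at h5
    linarith
  linarith

/-- subadditivity for small angles -/
theorem lob_subadd {α β : ℝ} (hα : 0 < α) (hβ : 0 < β) (hs : α + β ≤ π / 2) :
    lob (α + β) ≤ lob α + lob β := by
  have h1 := lob_sub 0 β
  rw [lob_zero] at h1
  have h2 := lob_sub α (α + β)
  have h3 : ∫ s in (0:ℝ)..β, lg (s + α) = ∫ s in α..(α + β), lg s := by
    rw [intervalIntegral.integral_comp_add_right, zero_add, add_comm β α]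
  have h4 : ∫ s in (0:ℝ)..β, lg s ≤ ∫ s in (0:ℝ)..β, lg (s + α) := by
    apply int_mono hβ.le (lg_integrable _ _)
    · have h5 := (lg_integrable α (α + β)).comp_add_right α
      have e1 : α - α = 0 := by ring
      have e2 : α + β - α = β := by ring
      rw [e1, e2] at h5
      exact h5
    · intro s hs1 hs2
      have hpi := Real.pi_pos
      apply lg_mono (Real.sin_pos_of_pos_of_lt_pi (by linarith) (by linarith))
      exact Real.sin_le_sin_of_le_of_le_pi_div_two (by linarith) (by linarith) (by linarith)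
  linarith

theorem three_nonneg {α β γ : ℝ} (hα : 0 < α) (hβ : 0 < β) (hγ : 0 < γ) (h : α + β + γ = π) :
    0 ≤ lob α + lob β + lob γ := by
  -- the case of an obtuse angle
  have key : ∀ a b c : ℝ, 0 < a → 0 < b → 0 < c → a + b + c = π → π / 2 ≤ c →
      0 ≤ lob a + lob b + lob c := by
    intro a b c ha hb hc hs hbig
    have h1 : lob c = - lob (a + b) := by
      rw [← lob_pi_sub]
      congr 1
      linarith
    have h2 := lob_subadd ha hb (by linarith)
    linarith
  by_cases h1 : π / 2 ≤ γ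
  · exact key α β γ hα hβ hγ h h1
  by_cases h2 : π / 2 ≤ β
  · have := key α γ β hα hγ hβ (by linarith) h2
    linarith
  by_cases h3 : π / 2 ≤ α
  · have := key β γ α hβ hγ hα (by linarith) h3
    linarith
  push Not at h1 h2 h3
  have a1 := lob_nonneg hα.le h3.le
  have a2 := lob_nonneg hβ.le h2.le
  have a3 := lob_nonneg hγ.le h1.le
  linarith

end Pool.Agent.Y415.LU
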